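import Pool.Agent.Lib_MP_4e0920_nt.Proof

/-!
# Quadratic points on abelian varieties with conjugate equal to the negative: double covers

Let `A` be an abelian variety over `ℚ` (a proper, geometrically integral group scheme).

* Let `X` be a scheme over `ℚ`, `h` a regular function on `X`, and `Y` the double cover `y ^ 2 = h`
  of `X`, assumed reduced. If the rational points `x` of `X` with `h(x)` not a square in `ℚ` are
  dense in `X`, and if a morphism `f : Y ⟶ A` over `ℚ` satisfies `2 f ≠ 2 (f ∘ ι)`, where `ι` is
  the involution `y ↦ - y`, then there are a quadratic field `K` and a point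
  `p ∈ A(K)`, not in `A(ℚ)`, with `σ(p) = - p`.
* If `A(ℚ)` is dense in `A`, and if, for some quadratic field `K`, there is a morphism
  `u : A_K ⟶ A_K` over `K` (for example an endomorphism of `A_K`) such that `2 u` is not equal to
  its Galois conjugate `2 u^σ`, then there is a point `p ∈ A(K)`, not in `A(ℚ)`, with
  `σ(p) = - p`.
-/

set_option autoImplicit false

open AlgebraicGeometry CategoryTheory MonoidalCategory CartesianMonoidalCategory MonObj Limits

namespace Pool.Agent.Results.MP_4e0920_nt.DoubleCovers

open Pool.Agent.MP_4e0920_nt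

/-- **Theorem.** Let `A` be an abelian variety over `ℚ`, that is, a proper and geometrically
integral group scheme over `ℚ`. The group law on the morphisms with values in `A` is written
multiplicatively: `f ^ 2` is `2 f` in additive notation.

(1) Let `X` be a scheme over `ℚ`, let `h` be a regular function on `X` and let `Y` be the double
cover `y ^ 2 = h` of `X`; suppose that `Y` is reduced and that the rational points of `X` at which
`h` is not a square in `ℚ` are dense in `X`. If a morphism `f : Y ⟶ A` over `ℚ` satisfies
`2 f ≠ 2 (f ∘ ι)`, where `ι` is the involution `y ↦ - y` of `Y`, then there are a quadratic field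
`K` and a point `p ∈ A(K)`, not in `A(ℚ)`, with `σ(p) = - p`.

(2) Suppose that the rational points of `A` are dense in `A`. If `K` is a quadratic field, with
non-trivial automorphism `σ`, and `u : A_K ⟶ A` is a morphism over `ℚ` (that is, a morphism
`A_K ⟶ A_K` over `K`) such that `2 u` is not equal to its Galois conjugate, then there is a point
`p ∈ A(K)`, not in `A(ℚ)`, with `σ(p) = - p`. -/
theorem result (A : Over SQ) [GrpObj A] [IsProper A.hom] [GeometricallyIntegral A.hom] :
    (∀ (X : Over SQ) (h : X ⟶ Line), IsReduced (DoubleCover h).left →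
      Dense (nonSquarePoints h) →
      ∀ f : DoubleCover h ⟶ A, f ^ 2 ≠ (involution h ≫ f) ^ 2 →
        ∃ (K : Type) (_ : Field K) (_ : Algebra ℚ K), Module.finrank ℚ K = 2 ∧
          ∃ σ : K ≃ₐ[ℚ] K, σ ≠ AlgEquiv.refl ∧ AntiPoint A K σ) ∧
    (Dense (rationalPoints A) →
      ∀ (K : Type) [Field K] [Algebra ℚ K], Module.finrank ℚ K = 2 →
        ∀ σ : K ≃ₐ[ℚ] K, σ ≠ AlgEquiv.refl →
          ∀ u : A ⊗ SpecOver K ⟶ A, u ^ 2 ≠ ((A ◁ galAct σ) ≫ u) ^ 2 → AntiPoint A K σ) := by
  refine ⟨fun X h hred hX f hf => ?_, fun hA K _ _ hK σ _ u hu => ?_⟩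
  · have : IsReduced (dbl h.left) := hred
    exact antiPoint_of_doubleCover h hX f hf
  · have : Module.Finite ℚ K := Module.finite_of_finrank_eq_succ hK
    exact antiPoint_of_baseChange hA (trans_self hK σ) u hu

end Pool.Agent.Results.MP_4e0920_nt.DoubleCovers
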